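import Pool.Agent.N718.GC.Stm
import Pool.Agent.W174.HB.HM

/-! Project GC (helper718), part ARIG (helper78): the Hasse principle for `y² - a z² = N`. -/

set_option autoImplicit false

namespace Pool.Agent.N78.GC

open Pool.Agent.N718.GC Pool.Agent.W313.BMX

theorem splits_of_nm {K : Type} [Field K] {a N : K} (h : Nm a N) : Splits a N := by
  obtain ⟨y, z, h⟩ := h
  exact ⟨z, 1, y, Or.inr (Or.inl one_ne_zero), by rw [← h]; ring⟩

theorem nm_of_splits {a N : ℚ} (ha : a ≠ 0) (h : Splits a N) : Nm a N := by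
  obtain ⟨x, y, z, h0, h⟩ := h
  by_cases hy : y = 0
  · subst hy
    have hx : x ≠ 0 := by
      rintro rfl
      have : z ^ 2 = 0 := by rw [h]; ring
      have hz : z = 0 := by simpa using this
      subst hz
      simp at h0
    have hz : z ≠ 0 := by
      rintro rfl
      have : a * x ^ 2 = 0 := by linarith
      rcases mul_eq_zero.1 this with h1 | h1
      · exact ha h1
      · exact hx (by simpa using h1)
    have ha' : a = (z / x) ^ 2 := by
      rw [div_pow, eq_div_iff (pow_ne_zero 2 hx)]
      linarith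
    refine ⟨(N + 1) / 2, (N - 1) / (2 * (z / x)), ?_⟩
    rw [ha']
    have hd : z / x ≠ 0 := div_ne_zero hz hx
    field_simp
    ring
  · refine ⟨z / y, x / y, ?_⟩
    field_simp
    linarith

theorem arig_ (h : S_LOCN) : S_ARIG := by
  obtain ⟨h1, -, -, h4⟩ := h
  intro M a N ha hN hM hr hloc hsym
  obtain ⟨hM1, hM2, hM3⟩ := hM
  apply nm_of_splits (Int.cast_ne_zero.2 ha)
  refine Pool.Agent.W174.HB.hm_ a N ha hN ?_ ?_
  · apply splits_of_nm
    rw [h4 _ _ (Int.cast_ne_zero.2 ha) (Int.cast_ne_zero.2 hN)]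
    rcases hr with h | h
    · exact Or.inl (Int.cast_pos.2 h)
    · exact Or.inr (Int.cast_pos.2 h)
  · intro p hp
    apply splits_of_nm
    by_cases hpM : p ∣ M
    · exact hloc p hpM
    · refine h1 p a N ?_ (fun hd => hpM (hM3 p hp.out hd)) hN ?_
      · rintro rfl
        exact hpM hM2
      · by_cases hd : (p : ℤ) ∣ N
        · exact Or.inr (hsym p hp.out hpM hd)
        · left
          rw [padicValNat.eq_zero_of_not_dvd (by rwa [← Int.natCast_dvd])]
          exact Even.zero

end Pool.Agent.N78.GC
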